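import Pool.Agent.MP_257582_lc.H60.Forms

/-!
Diagrams, antisymmetrised cochains and cycles.
-/

set_option autoImplicit false

namespace Pool.Agent.MP_257582_lc.H60

open Finset

variable {W ι : Type} [Fintype W] [DecidableEq W] [Fintype ι] [DecidableEq ι] {m : ℕ}

/-- `cell` enumerates the diagram whose column `i` has heights `1, …, c i` -/
structure En {q : ℕ} (c : ι → ℕ) (cell : Fin q → Option ι × ℕ) : Prop where
  inj : Function.Injective cell
  mem : ∀ t, ∃ i, (cell t).1 = some i ∧ 0 < (cell t).2 ∧ (cell t).2 ≤ c i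
  surj : ∀ i h, 0 < h → h ≤ c i → ∃ t, cell t = (some i, h)

omit [DecidableEq ι] in
lemma exists_en {q : ℕ} {c : ι → ℕ} (h : ∑ i, c i = q) :
    ∃ cell : Fin q → Option ι × ℕ, En c cell := by
  let g : (Σ i : ι, Fin (c i)) ≃ Fin q := Fintype.equivFinOfCardEq (by simp [h])
  refine ⟨fun t => (some (g.symm t).1, (g.symm t).2 + 1), fun s t hst => ?_, fun t => ?_,
    fun i k h1 h2 => ⟨g ⟨i, ⟨k - 1, by omega⟩⟩, ?_⟩⟩
  · apply g.symm.injective
    have a1 := (Prod.mk.inj hst).1
    have a2 := (Prod.mk.inj hst).2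
    rcases hs : g.symm s with ⟨i, k⟩
    rcases ht : g.symm t with ⟨j, l⟩
    rw [hs, ht] at a1 a2
    obtain rfl : i = j := Option.some_injective _ a1
    obtain rfl : k = l := Fin.ext (by simpa using a2)
    rfl
  · exact ⟨_, rfl, Nat.succ_pos _, (g.symm t).2.2⟩
  · rw [Equiv.symm_apply_apply]
    simp only [Prod.mk.injEq, true_and]
    omega

omit [Fintype ι] in
lemma En.card {q : ℕ} {c : ι → ℕ} {cell : Fin q → Option ι × ℕ} (h : En c cell) (i : ι) :
    #{t | (cell t).1 = some i} = c i := by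
  have : #(Icc 1 (c i)) = c i := by simp
  rw [← this]
  refine card_bij (fun t _ => (cell t).2) (fun t ht => ?_) (fun s hs t ht hst => ?_)
    (fun k hk => ?_)
  · obtain ⟨j, h1, h2, h3⟩ := h.mem t
    obtain rfl : j = i := Option.some_injective _ (h1.symm.trans (mem_filter.1 ht).2)
    exact mem_Icc.2 ⟨h2, h3⟩
  · exact h.inj (Prod.ext ((mem_filter.1 hs).2.trans (mem_filter.1 ht).2.symm) hst)
  · obtain ⟨t, ht⟩ := h.surj i k (mem_Icc.1 hk).1 (mem_Icc.1 hk).2
    exact ⟨t, by simp [ht], by simp [ht]⟩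

omit [Fintype ι] in
lemma En.cons {q : ℕ} {c : ι → ℕ} {cell : Fin q → Option ι × ℕ} (h : En c cell) (i : ι) :
    En (c + Pi.single i 1) (Fin.cons (some i, c i + 1) cell : Fin (q + 1) → Option ι × ℕ) where
  inj := by
    rw [Fin.cons_injective_iff]
    refine ⟨?_, h.inj⟩
    rintro ⟨t, ht⟩
    obtain ⟨j, h1, _, h3⟩ := h.mem t
    rw [ht] at h1 h3
    obtain rfl : i = j := Option.some_injective _ h1
    simp at h3
  mem := fun t => by
    refine Fin.cases ⟨i, rfl, by simp, by simp⟩ (fun t => ?_) t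
    obtain ⟨j, h1, h2, h3⟩ := h.mem t
    exact ⟨j, h1, h2, h3.trans (Nat.le_add_right _ _)⟩
  surj := fun j k h1 h2 => by
    by_cases h3 : k ≤ c j
    · obtain ⟨t, ht⟩ := h.surj j k h1 h3
      exact ⟨t.succ, ht⟩
    · by_cases hji : j = i
      · subst hji
        simp only [Pi.add_apply, Pi.single_eq_same] at h2
        exact ⟨0, by rw [Fin.cons_zero, show k = c j + 1 by omega]⟩
      · simp only [Pi.add_apply, Pi.single_eq_of_ne hji] at h2
        omega

omit [Fintype ι] [DecidableEq ι] in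
lemma En.perm {q : ℕ} {c : ι → ℕ} {cell cell' : Fin q → Option ι × ℕ} (h : En c cell)
    (h' : En c cell') : ∃ ρ : Equiv.Perm (Fin q), cell' = fun t => cell (ρ t) := by
  have key : ∀ t, ∃ s, cell s = cell' t := fun t => by
    obtain ⟨i, h1, h2, h3⟩ := h'.mem t
    obtain ⟨s, hs⟩ := h.surj i _ h2 h3
    exact ⟨s, by rw [hs, ← h1]⟩
  choose g hg using key
  have hinj : Function.Injective g := fun s t hst => h'.inj (by rw [← hg, ← hg, hst])
  exact ⟨Equiv.ofBijective g (Finite.injective_iff_bijective.1 hinj), funext fun t => (hg t).symm⟩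

variable (e : ι ⊕ Fin (m + 1) ≃ W)

/-- colouring determined by an assignment of the unlabelled vertices -/
def colA (a : Fin (m + 1) → Option ι) : W → Option ι := fun w => Sum.elim some a (e.symm w)

/-- colouring of an arrangement -/
def colC (cell : Fin (m + 1) → Option ι × ℕ) (π : Equiv.Perm (Fin (m + 1))) : W → Option ι :=
  colA e fun j => (cell (π.symm j)).1

/-- heights of an arrangement -/
def htC (cell : Fin (m + 1) → Option ι × ℕ) (π : Equiv.Perm (Fin (m + 1))) : W → ℕ :=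
  fun w => Sum.elim (fun _ => 0) (fun j => (cell (π.symm j)).2) (e.symm w)

section basic

omit [Fintype W] [DecidableEq W] [Fintype ι] [DecidableEq ι]

@[simp] lemma colA_inl (a : Fin (m + 1) → Option ι) (i : ι) :
    colA e a (e (Sum.inl i)) = some i := by simp [colA]

@[simp] lemma colA_inr (a : Fin (m + 1) → Option ι) (j : Fin (m + 1)) :
    colA e a (e (Sum.inr j)) = a j := by simp [colA]

@[simp] lemma colC_inl (cell : Fin (m + 1) → Option ι × ℕ) (π : Equiv.Perm (Fin (m + 1))) (i : ι) :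
    colC e cell π (e (Sum.inl i)) = some i := by simp [colC]

@[simp] lemma colC_inr (cell : Fin (m + 1) → Option ι × ℕ) (π : Equiv.Perm (Fin (m + 1)))
    (t : Fin (m + 1)) : colC e cell π (e (Sum.inr (π t))) = (cell t).1 := by simp [colC]

@[simp] lemma htC_inl (cell : Fin (m + 1) → Option ι × ℕ) (π : Equiv.Perm (Fin (m + 1))) (i : ι) :
    htC e cell π (e (Sum.inl i)) = 0 := by simp [htC]

@[simp] lemma htC_inr (cell : Fin (m + 1) → Option ι × ℕ) (π : Equiv.Perm (Fin (m + 1)))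
    (t : Fin (m + 1)) : htC e cell π (e (Sum.inr (π t))) = (cell t).2 := by simp [htC]

lemma vert_cases (π : Equiv.Perm (Fin (m + 1))) (w : W) :
    (∃ i, w = e (Sum.inl i)) ∨ ∃ t, w = e (Sum.inr (π t)) := by
  obtain ⟨p, rfl⟩ := e.surjective w
  rcases p with i | j
  · exact Or.inl ⟨i, rfl⟩
  · exact Or.inr ⟨π.symm j, by simp⟩

lemma inj_of_cell {cell : Fin (m + 1) → Option ι × ℕ} (h1 : Function.Injective cell)
    (h2 : ∀ t, (cell t).2 = 0 → (cell t).1 = none) (π : Equiv.Perm (Fin (m + 1))) (u w : W)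
    (hc : colC e cell π u = colC e cell π w) (hh : htC e cell π u = htC e cell π w) : u = w := by
  rcases vert_cases e π u with ⟨i, rfl⟩ | ⟨s, rfl⟩ <;>
    rcases vert_cases e π w with ⟨j, rfl⟩ | ⟨t, rfl⟩ <;>
    simp only [colC_inl, colC_inr, htC_inl, htC_inr] at hc hh
  · rw [Option.some_injective _ hc]
  · rw [h2 t hh.symm] at hc; cases hc
  · rw [h2 s hh] at hc; cases hc
  · rw [h1 (Prod.ext hc hh)]

/-- the arrangement with one isolated vertex -/
def c0 (cell : Fin m → Option ι × ℕ) : Fin (m + 1) → Option ι × ℕ := Fin.cons (none, 0) cell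

lemma c0_inj {c : ι → ℕ} {cell : Fin m → Option ι × ℕ} (h : En c cell) :
    Function.Injective (c0 cell) := by
  rw [c0, Fin.cons_injective_iff]
  refine ⟨?_, h.inj⟩
  rintro ⟨t, ht⟩
  obtain ⟨j, h1, _⟩ := h.mem t
  rw [ht] at h1
  cases h1

lemma c0_zero {c : ι → ℕ} {cell : Fin m → Option ι × ℕ} (h : En c cell) (t : Fin (m + 1)) :
    (c0 cell t).2 = 0 → (c0 cell t).1 = none := by
  refine Fin.cases (fun _ => rfl) (fun t h0 => ?_) t
  obtain ⟨j, _, h2, _⟩ := h.mem t
  exact absurd h0 h2.ne'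

lemma c0_none {c : ι → ℕ} {cell : Fin m → Option ι × ℕ} (h : En c cell)
    (π : Equiv.Perm (Fin (m + 1))) (w : W) :
    colC e (c0 cell) π w = none ↔ w = e (Sum.inr (π 0)) := by
  refine ⟨fun h0 => ?_, fun h0 => by rw [h0, colC_inr]; rfl⟩
  rcases vert_cases e π w with ⟨i, rfl⟩ | ⟨t, rfl⟩
  · simp at h0
  · rw [colC_inr] at h0
    revert h0
    refine Fin.cases (fun _ => rfl) (fun t h0 => ?_) t
    obtain ⟨j, h1, _⟩ := h.mem t
    rw [show (c0 cell t.succ).1 = (cell t).1 from rfl, h1] at h0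
    cases h0

lemma c0_ht (cell : Fin m → Option ι × ℕ) (π : Equiv.Perm (Fin (m + 1))) (w : W)
    (h0 : htC e (c0 cell) π w ≠ 0) : ∃ t : Fin m, w = e (Sum.inr (π t.succ)) := by
  rcases vert_cases e π w with ⟨i, rfl⟩ | ⟨t, rfl⟩
  · simp at h0
  · rw [htC_inr] at h0
    revert h0
    exact Fin.cases (fun h0 => (h0 rfl).elim) (fun t _ => ⟨t, rfl⟩) t

lemma FF_cons_succ {c : ι → ℕ} {cell : Fin m → Option ι × ℕ} (h : En c cell) (i : ι)
    (π : Equiv.Perm (Fin (m + 1))) (t : Fin m) :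
    FF (colC e (Fin.cons (some i, c i + 1) cell) π) (htC e (Fin.cons (some i, c i + 1) cell) π)
      (e (Sum.inr (π t.succ)))
      = FF (colC e (c0 cell) π) (htC e (c0 cell) π) (e (Sum.inr (π t.succ))) := by
  classical
  funext a
  unfold FF
  refine if_congr (exists_congr fun u => ?_) rfl rfl
  obtain ⟨j, h1, h2, h3⟩ := h.mem t
  rcases vert_cases e π u with ⟨i', rfl⟩ | ⟨s, rfl⟩
  · simp [c0]
  · refine Fin.cases ?_ (fun s => ?_) s
    · simp only [colC_inr, htC_inr, c0, Fin.cons_zero, Fin.cons_succ, h1]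
      refine ⟨fun h4 => ?_, fun h4 => by cases h4.1⟩
      obtain rfl : i = j := Option.some_injective _ h4.1
      omega
    · simp [c0]

lemma FF_cons_zero {c : ι → ℕ} {cell : Fin m → Option ι × ℕ} (h : En c cell) (i : ι)
    (π : Equiv.Perm (Fin (m + 1))) :
    FF (colC e (Fin.cons (some i, c i + 1) cell) π) (htC e (Fin.cons (some i, c i + 1) cell) π)
      (e (Sum.inr (π 0)))
      = GG (colC e (c0 cell) π) (e (Sum.inr (π 0))) (some i) := by
  classical
  funext a
  unfold FF GG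
  refine if_congr (exists_congr fun u => ?_) rfl rfl
  rcases vert_cases e π u with ⟨i', rfl⟩ | ⟨s, rfl⟩
  · simp
  · refine Fin.cases ?_ (fun s => ?_) s
    · simp [c0]
    · simp only [colC_inr, htC_inr, c0, Fin.cons_zero, Fin.cons_succ]
      refine ⟨fun h4 => ⟨h4.1, h4.2.2⟩, fun h4 => ⟨h4.1, ?_, h4.2⟩⟩
      obtain ⟨j, h1, _, h3⟩ := h.mem s
      obtain rfl : j = i := Option.some_injective _ (h1.symm.trans h4.1)
      omega

/-- star forest of an assignment -/
def st (a : Fin (m + 1) → Option ι) : SimpleGraph W :=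
  SimpleGraph.fromRel fun u v => ∃ j i, a j = some i ∧ u = e (Sum.inr j) ∧ v = e (Sum.inl i)

lemma st_adj (a : Fin (m + 1) → Option ι) (u v : W) : (st e a).Adj u v ↔
    ∃ j i, a j = some i ∧ ((u = e (Sum.inr j) ∧ v = e (Sum.inl i)) ∨
      (v = e (Sum.inr j) ∧ u = e (Sum.inl i))) := by
  rw [st, SimpleGraph.fromRel_adj]
  constructor
  · rintro ⟨_, ⟨j, i, h1, h2⟩ | ⟨j, i, h1, h2⟩⟩
    · exact ⟨j, i, h1, Or.inl h2⟩
    · exact ⟨j, i, h1, Or.inr h2⟩
  · rintro ⟨j, i, h1, ⟨rfl, rfl⟩ | ⟨rfl, rfl⟩⟩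
    · exact ⟨fun h => Sum.inr_ne_inl (e.injective h), Or.inl ⟨j, i, h1, rfl, rfl⟩⟩
    · exact ⟨fun h => Sum.inl_ne_inr (e.injective h), Or.inr ⟨j, i, h1, rfl, rfl⟩⟩

lemma st_star (a : Fin (m + 1) → Option ι) (u v w z : W) (h1 : (st e a).Adj u v)
    (h2 : (st e a).Adj v w) (h3 : (st e a).Adj w z) : u = w ∨ v = z := by
  rw [st_adj] at h1 h2 h3
  obtain ⟨j, i, a1, ⟨rfl, rfl⟩ | ⟨rfl, rfl⟩⟩ := h2
  · left
    obtain ⟨j', i', b1, ⟨_, b2⟩ | ⟨b2, rfl⟩⟩ := h1
    · cases e.injective b2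
    · obtain rfl : j = j' := Sum.inr_injective (e.injective b2)
      rw [Option.some_injective _ (a1.symm.trans b1)]
  · right
    obtain ⟨j', i', b1, ⟨b2, rfl⟩ | ⟨_, b2⟩⟩ := h3
    · obtain rfl : j = j' := Sum.inr_injective (e.injective b2)
      rw [Option.some_injective _ (a1.symm.trans b1)]
    · cases e.injective b2

lemma st_reach (a : Fin (m + 1) → Option ι) (ha : ∀ j j', a j = none → a j' = none → j = j')
    (u v : W) : (st e a).Reachable u v ↔ colA e a u = colA e a v := by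
  refine ⟨col_of_reach fun u v huv => ?_, fun h => ?_⟩
  · obtain ⟨j, i, a1, ⟨rfl, rfl⟩ | ⟨rfl, rfl⟩⟩ := (st_adj e a u v).1 huv <;> simp [a1]
  · have key : ∀ w i, colA e a w = some i → (st e a).Reachable w (e (Sum.inl i)) := fun w i hw => by
      obtain ⟨p, rfl⟩ := e.surjective w
      rcases p with i' | j
      · rw [colA_inl] at hw
        rw [Option.some_injective _ hw]
      · rw [colA_inr] at hw
        exact SimpleGraph.Adj.reachable ((st_adj e a _ _).2 ⟨j, i, hw, Or.inl ⟨rfl, rfl⟩⟩)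
    rcases hu : colA e a u with _ | i
    · have hv := h.symm.trans hu
      obtain ⟨p, rfl⟩ := e.surjective u
      obtain ⟨q, rfl⟩ := e.surjective v
      rcases p with i | j
      · simp at hu
      rcases q with i' | j'
      · simp at hv
      rw [colA_inr] at hu hv
      rw [ha j j' hu hv]
    · exact (key u i hu).trans (key v i (h.symm.trans hu)).symm

end basic

variable {r : Sym2 W → ℕ} (hr : Function.Injective r)

/-- cochain of a full arrangement -/
noncomputable def Phi (cell : Fin (m + 1) → Option ι × ℕ) : Finset (Sym2 W) → ℚ :=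
  ∑ π : Equiv.Perm (Fin (m + 1)), ((Equiv.Perm.sign π : ℤ) : ℚ) •
    Alt hr fun t : Fin (m + 1) => FF (colC e cell π) (htC e cell π) (e (Sum.inr (π t)))

/-- cochain of an arrangement with one isolated vertex -/
noncomputable def Psi (cell : Fin m → Option ι × ℕ) : Finset (Sym2 W) → ℚ :=
  ∑ π : Equiv.Perm (Fin (m + 1)), ((Equiv.Perm.sign π : ℤ) : ℚ) •
    Alt hr fun t : Fin m =>
      FF (colC e (c0 cell) π) (htC e (c0 cell) π) (e (Sum.inr (π t.succ)))

/-- the star edge of a cell -/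
def se (cell : Fin m → Option ι × ℕ) (π : Equiv.Perm (Fin (m + 1))) (t : Fin m) : Sym2 W :=
  s(e (Sum.inr (π t.succ)), e ((cell t).1.elim (Sum.inr 0) Sum.inl))

/-- antisymmetrised star forest -/
noncomputable def Cyc (cell : Fin m → Option ι × ℕ) : Finset (Sym2 W) → ℚ :=
  ∑ π : Equiv.Perm (Fin (m + 1)), ((Equiv.Perm.sign π : ℤ) : ℚ) •
    Alt hr fun t : Fin m => Pi.single (se e cell π t) (1 : ℚ)

omit [Fintype ι] [DecidableEq ι] in
lemma Phi_perm (cell : Fin (m + 1) → Option ι × ℕ) (ρ : Equiv.Perm (Fin (m + 1))) :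
    Phi e hr (fun t => cell (ρ t)) = Phi e hr cell := by
  unfold Phi
  rw [← Equiv.sum_comp (Equiv.mulRight ρ)]
  refine sum_congr rfl fun π _ => ?_
  have h1 : colC e (fun t => cell (ρ t)) (Equiv.mulRight ρ π) = colC e cell π := by
    unfold colC
    congr 1
    funext j
    simp [Equiv.Perm.mul_def]
  have h2 : htC e (fun t => cell (ρ t)) (Equiv.mulRight ρ π) = htC e cell π := by
    unfold htC
    funext w
    congr 1
    funext j
    simp [Equiv.Perm.mul_def]
  rw [h1, h2]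
  have h3 := Alt_perm hr (fun t : Fin (m + 1) =>
    FF (colC e cell π) (htC e cell π) (e (Sum.inr (π t)))) ρ
  simp only [Equiv.coe_mulRight, Equiv.Perm.mul_apply]
  rw [h3, smul_smul, Equiv.Perm.sign_mul]
  congr 1
  rcases Int.units_eq_one_or (Equiv.Perm.sign ρ) with h | h <;> simp [h]

omit [Fintype ι] [DecidableEq ι] in
lemma Phi_en {c : ι → ℕ} {cell cell' : Fin (m + 1) → Option ι × ℕ} (h : En c cell)
    (h' : En c cell') : Phi e hr cell' = Phi e hr cell := by
  obtain ⟨ρ, rfl⟩ := h.perm h'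
  exact Phi_perm e hr cell ρ

variable {P : SimpleGraph W → Prop}

lemma cobd_Psi
    (hB : ∀ (col : W → Option ι) (w0 : W) (b : Option ι), (∀ w, col w ≠ b) →
      (∀ w, col w = col w0 → w = w0) → Good P col)
    {c : ι → ℕ} {cell : Fin m → Option ι × ℕ} (h : En c cell) (σ : Finset (Sym2 W))
    (hσ : σ ∈ KK P) :
    CC r 1 (Psi e hr cell) σ = ∑ i, Phi e hr (Fin.cons (some i, c i + 1) cell) σ := by
  unfold Psi Phi
  rw [map_sum, Finset.sum_apply]
  simp only [Finset.sum_apply]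
  rw [sum_comm]
  refine sum_congr rfl fun π _ => ?_
  rw [map_smul, Pi.smul_apply, cobd hB hr (c0_none e h π)
    (inj_of_cell e (c0_inj h) (c0_zero h) π) _ (c0_ht e cell π) σ hσ, smul_sum]
  refine sum_congr rfl fun i _ => ?_
  rw [Pi.smul_apply, Alt_succ hr (m := m), FF_cons_zero e h]
  simp only [FF_cons_succ e h]

omit [Fintype ι] in
lemma Phi_ne_zero
    (hstar : ∀ S G : SimpleGraph W, (∀ a b c d, S.Adj a b → S.Adj b c → S.Adj c d → a = c ∨ b = d) →
      (∀ u v, S.Reachable u v ↔ G.Reachable u v) → P S → P G)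
    {c : ι → ℕ} {cell : Fin (m + 1) → Option ι × ℕ} (h : En c cell) {σ : Finset (Sym2 W)}
    (hσ : σ ∈ KK P) (h0 : Phi e hr cell σ ≠ 0) :
    ∃ a : Fin (m + 1) → Option ι, (∀ i, #{j | a j = some i} = c i) ∧ ¬ P (st e a) := by
  unfold Phi at h0
  rw [Finset.sum_apply] at h0
  obtain ⟨π, _, h1⟩ := exists_ne_zero_of_sum_ne_zero h0
  obtain ⟨h2', h2⟩ := Alt_supp hr _ _ (right_ne_zero_of_mul h1)
  refine ⟨fun j => (cell (π.symm j)).1, fun i => ?_,
    fun hP => hσ.2 (hstar _ _ (st_star e _) (fun u v => ?_) hP)⟩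
  · rw [← h.card i]
    exact card_equiv π.symm (by simp)
  · rw [st_reach e _ fun j _ hj _ => by
      obtain ⟨i, h3, _⟩ := h.mem (π.symm j)
      rw [h3] at hj
      cases hj]
    refine ⟨reach_of_back (inj_of_cell e h.inj (fun t ht => ?_) π) σ (fun w hw => ?_) u v,
      col_of_reach (col := colC e cell π) fun x y hxy => ?_⟩
    · obtain ⟨j, _, h3, _⟩ := h.mem t
      exact absurd ht h3.ne'
    · rcases vert_cases e π w with ⟨i, rfl⟩ | ⟨t, rfl⟩
      · simp at hw
      · exact h2 t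
    · rw [SimpleGraph.fromEdgeSet_adj] at hxy
      obtain ⟨t, ht⟩ := h2' _ hxy.1
      obtain ⟨z, h8, _, h9⟩ := FF_ne_zero ht
      rcases Sym2.eq_iff.1 h9 with ⟨rfl, rfl⟩ | ⟨rfl, rfl⟩
      · exact h8.symm
      · exact h8

omit [Fintype ι] [DecidableEq ι] in
lemma bd_Cyc (cell : Fin m → Option ι × ℕ) : bd r (Cyc e hr cell) = 0 := by
  unfold Cyc
  rw [map_sum]
  cases m with
  | zero => exact sum_eq_zero fun π _ => by rw [map_smul, Alt_zero, bd_vac, smul_zero]
  | succ m =>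
    simp only [map_smul]
    simp only [bd_Alt hr _ (fun t => Fintype.sum_pi_single' _ _), smul_sum]
    rw [sum_comm]
    refine sum_eq_zero fun t _ => ?_
    set S := ∑ π : Equiv.Perm (Fin (m + 1 + 1)), ((Equiv.Perm.sign π : ℤ) : ℚ) •
      (-1 : ℚ) ^ (t : ℕ) • Alt hr fun s => Pi.single (se e cell π (t.succAbove s)) (1 : ℚ) with hS
    have h1 : S = -S := by
      conv_lhs => rw [hS, ← Equiv.sum_comp (Equiv.mulRight (Equiv.swap 0 t.succ))]
      rw [hS, ← sum_neg_distrib]
      refine sum_congr rfl fun π _ => ?_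
      have h2 : ∀ s, se e cell (Equiv.mulRight (Equiv.swap 0 t.succ) π) (t.succAbove s)
          = se e cell π (t.succAbove s) := fun s => by
        unfold se
        rw [Equiv.coe_mulRight, Equiv.Perm.mul_apply, Equiv.swap_apply_of_ne_of_ne
          (Fin.succ_ne_zero _) (fun h => Fin.succAbove_ne t s (Fin.succ_injective _ h))]
      simp only [h2]
      rw [Equiv.coe_mulRight, Equiv.Perm.sign_mul, Equiv.Perm.sign_swap (Fin.succ_ne_zero t).symm,
        ← neg_smul]
      simp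
    have h3 : (2 : ℚ) • S = 0 := by
      rw [two_smul]
      exact add_eq_zero_iff_eq_neg.2 h1
    exact (smul_eq_zero.1 h3).resolve_left two_ne_zero

end Pool.Agent.MP_257582_lc.H60
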