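import Pool.Agent.MP_257582_lc.H60.Wedge

/-!
Colourings with heights, the back-edge forms, and the coboundary of their wedge products.
-/

set_option autoImplicit false

namespace Pool.Agent.MP_257582_lc.H60

open Finset

variable {W : Type} {β : Type}

/-- every graph whose components are the colour classes has the property -/
def Good (P : SimpleGraph W → Prop) (col : W → β) : Prop :=
  ∀ G : SimpleGraph W, (∀ u v, G.Reachable u v ↔ col u = col v) → P G

lemma col_of_reach {G : SimpleGraph W} {col : W → β} (h : ∀ u v, G.Adj u v → col u = col v)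
    {u v : W} (huv : G.Reachable u v) : col u = col v := by
  rw [SimpleGraph.reachable_iff_reflTransGen] at huv
  induction huv with
  | refl => rfl
  | tail _ h2 ih => exact ih.trans (h _ _ h2)

open Classical in
/-- sum of the edges from `w` to lower vertices of the same colour -/
noncomputable def FF (col : W → β) (ht : W → ℕ) (w : W) : Sym2 W → ℚ := fun a =>
  if ∃ u, col u = col w ∧ ht u < ht w ∧ a = s(w, u) then 1 else 0

open Classical in
/-- sum of the edges from `w` to vertices of colour `b` -/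
noncomputable def GG (col : W → β) (w : W) (b : β) : Sym2 W → ℚ := fun a =>
  if ∃ u, col u = b ∧ a = s(w, u) then 1 else 0

lemma FF_ne_zero {col : W → β} {ht : W → ℕ} {w : W} {a : Sym2 W} (h : FF col ht w a ≠ 0) :
    ∃ u, col u = col w ∧ ht u < ht w ∧ a = s(w, u) := by
  by_contra h'
  exact h (if_neg h')

lemma GG_ne_zero {col : W → β} {w : W} {b : β} {a : Sym2 W} (h : GG col w b a ≠ 0) :
    ∃ u, col u = b ∧ a = s(w, u) := by
  by_contra h'
  exact h (if_neg h')

lemma FF_zero {col : W → β} {ht : W → ℕ} {w : W} (h : ht w = 0) : FF col ht w = 0 := by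
  funext a
  by_contra h'
  obtain ⟨u, _, h2, _⟩ := FF_ne_zero h'
  omega

lemma reach_of_back {col : W → β} {ht : W → ℕ}
    (hinj : ∀ u w, col u = col w → ht u = ht w → u = w) (σ : Finset (Sym2 W))
    (h : ∀ w, ht w ≠ 0 → ∃ a ∈ σ, FF col ht w a ≠ 0) (u w : W) (huw : col u = col w) :
    (SimpleGraph.fromEdgeSet (σ : Set (Sym2 W))).Reachable u w := by
  have key : ∀ n w, ht w = n → ∃ u, col u = col w ∧ ht u = 0 ∧
      (SimpleGraph.fromEdgeSet (σ : Set (Sym2 W))).Reachable w u := by
    intro n
    induction n using Nat.strong_induction_on with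
    | _ n ih =>
      intro w hw
      by_cases h0 : ht w = 0
      · exact ⟨w, rfl, h0, SimpleGraph.Reachable.refl _⟩
      · obtain ⟨a, ha, h1⟩ := h w h0
        obtain ⟨u, h2, h3, rfl⟩ := FF_ne_zero h1
        obtain ⟨v, h4, h5, h6⟩ := ih (ht u) (hw ▸ h3) u rfl
        refine ⟨v, h4.trans h2, h5, SimpleGraph.Reachable.trans (SimpleGraph.Adj.reachable ?_) h6⟩
        rw [SimpleGraph.fromEdgeSet_adj]
        exact ⟨ha, fun h' => by rw [h'] at h3; omega⟩
  obtain ⟨u', a1, a2, a3⟩ := key _ u rfl
  obtain ⟨w', b1, b2, b3⟩ := key _ w rfl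
  have : u' = w' := hinj _ _ (a1.trans (huw.trans b1.symm)) (a2.trans b2.symm)
  exact a3.trans (this ▸ b3.symm)

variable {ι : Type} [Fintype W] [DecidableEq W] [Fintype ι] [DecidableEq ι]

omit [DecidableEq ι] in
lemma decomp {col : W → Option ι} {ht : W → ℕ} {w0 : W} (h0 : ∀ w, col w = none ↔ w = w0)
    (hinj : ∀ u w, col u = col w → ht u = ht w → u = w) {u w : W} (huw : u ≠ w)
    (hc : col u = none ∨ col w = none ∨ col u = col w) :
    ∑ v, FF col ht v s(u, w) + ∑ i, GG col w0 (some i) s(u, w) = 1 := by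
  have A : ∀ w, w ≠ w0 →
      ∑ v, FF col ht v s(w0, w) + ∑ i, GG col w0 (some i) s(w0, w) = 1 := fun w hw => by
    obtain ⟨i, hi⟩ := Option.ne_none_iff_exists'.1 fun h => hw ((h0 w).1 h)
    have hw0 : col w0 = none := (h0 w0).2 rfl
    rw [sum_eq_zero, zero_add, sum_eq_single i]
    · exact if_pos ⟨w, hi, rfl⟩
    · intro j _ hj
      by_contra h
      obtain ⟨v, h1, h2⟩ := GG_ne_zero h
      rcases Sym2.eq_iff.1 h2 with ⟨_, rfl⟩ | ⟨rfl, h3⟩
      · exact hj (Option.some_injective _ (h1.symm.trans hi))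
      · exact hw h3
    · simp
    · intro v _
      by_contra h
      obtain ⟨v', h1, _, h2⟩ := FF_ne_zero h
      rcases Sym2.eq_iff.1 h2 with ⟨rfl, rfl⟩ | ⟨rfl, rfl⟩
      · rw [hi, hw0] at h1; cases h1
      · rw [hi, hw0] at h1; cases h1
  have B : ∀ u w, u ≠ w0 → w ≠ w0 → col u = col w → ht u < ht w →
      ∑ v, FF col ht v s(u, w) + ∑ i, GG col w0 (some i) s(u, w) = 1 := fun u w hu hw h1 h2 => by
    rw [sum_eq_single w, sum_eq_zero, add_zero]
    · exact if_pos ⟨u, h1, h2, Sym2.eq_swap⟩
    · intro i _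
      by_contra h
      obtain ⟨v, _, h4⟩ := GG_ne_zero h
      rcases Sym2.eq_iff.1 h4 with ⟨h5, _⟩ | ⟨_, h5⟩
      · exact hu h5
      · exact hw h5
    · intro v _ hv
      by_contra h
      obtain ⟨v', _, h3, h4⟩ := FF_ne_zero h
      rcases Sym2.eq_iff.1 h4 with ⟨rfl, rfl⟩ | ⟨_, h5⟩
      · omega
      · exact hv h5.symm
    · simp
  by_cases hu : u = w0
  · subst hu
    exact A w huw.symm
  by_cases hw : w = w0
  · subst hw
    rw [Sym2.eq_swap]
    exact A u hu
  have hc' : col u = col w := by
    rcases hc with h | h | h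
    · exact (hu ((h0 u).1 h)).elim
    · exact (hw ((h0 w).1 h)).elim
    · exact h
  rcases lt_trichotomy (ht u) (ht w) with h | h | h
  · exact B u w hu hw hc' h
  · exact (huw (hinj _ _ hc' h)).elim
  · rw [Sym2.eq_swap]
    exact B w u hw hu hc'.symm h

/-- the complex of graphs without the property -/
def KK (P : SimpleGraph W → Prop) : Set (Finset (Sym2 W)) :=
  {A | (∀ a ∈ A, ¬ a.IsDiag) ∧ ¬ P (SimpleGraph.fromEdgeSet (A : Set (Sym2 W)))}

theorem cobd {P : SimpleGraph W → Prop}
    (hB : ∀ (col : W → Option ι) (w0 : W) (b : Option ι), (∀ w, col w ≠ b) →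
      (∀ w, col w = col w0 → w = w0) → Good P col)
    {r : Sym2 W → ℕ} (hr : Function.Injective r)
    {col : W → Option ι} {ht : W → ℕ} {w0 : W} (h0 : ∀ w, col w = none ↔ w = w0)
    (hinj : ∀ u w, col u = col w → ht u = ht w → u = w) {m : ℕ} (v : Fin m → W)
    (hv : ∀ w, ht w ≠ 0 → ∃ t, w = v t) (σ : Finset (Sym2 W)) (hσ : σ ∈ KK P) :
    CC r 1 (Alt hr fun t => FF col ht (v t)) σ
      = ∑ i, CC r (GG col w0 (some i)) (Alt hr fun t => FF col ht (v t)) σ := by
  set A := Alt hr fun t => FF col ht (v t) with hA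
  set rest : Sym2 W → ℚ := 1 - (∑ w, FF col ht w + ∑ i, GG col w0 (some i)) with hrest
  have h1 : (1 : Sym2 W → ℚ) = ∑ w, FF col ht w + ∑ i, GG col w0 (some i) + rest := by
    rw [hrest]; abel
  have h2 : CC r (∑ w, FF col ht w) A = 0 := by
    rw [map_sum, LinearMap.sum_apply]
    refine sum_eq_zero fun w _ => ?_
    by_cases h : ht w = 0
    · rw [FF_zero h]; simp
    · obtain ⟨t, rfl⟩ := hv w h
      exact CC_Alt_self hr (fun t => FF col ht (v t)) t
  have h3 : CC r rest A σ = 0 := by
    by_contra h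
    obtain ⟨a, ha, h4, h5⟩ := CC_ne_zero h
    have h6 := (Alt_supp hr _ _ h5).2
    have hre := reach_of_back hinj σ fun w hw => by
      obtain ⟨t, rfl⟩ := hv w hw
      obtain ⟨b, hb, h7⟩ := h6 t
      exact ⟨b, mem_of_mem_erase hb, h7⟩
    induction a using Sym2.ind with
    | _ u w =>
      have huw : u ≠ w := fun h => hσ.1 _ ha (by simp [h])
      by_cases hc : col u = none ∨ col w = none ∨ col u = col w
      · refine h4 ?_
        simp only [hrest, Pi.sub_apply, Pi.add_apply, Finset.sum_apply, Pi.one_apply]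
        rw [decomp h0 hinj huw hc, sub_self]
      · push Not at hc
        obtain ⟨c1, c2, c3⟩ := hc
        have hadj : (SimpleGraph.fromEdgeSet (σ : Set (Sym2 W))).Reachable u w :=
          SimpleGraph.Adj.reachable (by rw [SimpleGraph.fromEdgeSet_adj]; exact ⟨ha, huw⟩)
        refine hσ.2 (hB (fun x => if col x = col w then col u else col x) w0 (col w)
          (fun x => ?_) (fun x hx => ?_) _ fun x y => ⟨col_of_reach
            (col := fun x => if col x = col w then col u else col x) fun x y hxy => ?_, fun h7 => ?_⟩)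
        · by_cases hx : col x = col w
          · simp only [hx, if_true]; exact c3
          · simp only [hx, if_false]; exact hx
        · have hw0 : col w0 = none := (h0 w0).2 rfl
          have h8 : ¬ col w0 = col w := fun h => c2 (h.symm.trans hw0)
          simp only [h8, if_false] at hx
          by_cases hx' : col x = col w
          · simp only [hx', if_true] at hx
            exact (c1 (hx.trans hw0)).elim
          · simp only [hx', if_false] at hx
            exact (h0 x).1 (hx.trans hw0)
        · rw [SimpleGraph.fromEdgeSet_adj] at hxy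
          by_cases h7 : s(x, y) = s(u, w)
          · rcases Sym2.eq_iff.1 h7 with ⟨rfl, rfl⟩ | ⟨rfl, rfl⟩ <;> simp
          · obtain ⟨t, ht⟩ := (Alt_supp hr _ _ h5).1 _ (mem_erase.2 ⟨h7, hxy.1⟩)
            obtain ⟨z, h8, _, h9⟩ := FF_ne_zero ht
            rcases Sym2.eq_iff.1 h9 with ⟨rfl, rfl⟩ | ⟨rfl, rfl⟩ <;> simp only [h8]
        · by_cases hx : col x = col w <;> by_cases hy : col y = col w
          · exact hre _ _ (hx.trans hy.symm)
          · simp only [hx, hy, if_true, if_false] at h7
            exact ((hre _ _ hx).trans hadj.symm).trans (hre _ _ h7)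
          · simp only [hx, hy, if_true, if_false] at h7
            exact ((hre _ _ h7).trans hadj).trans (hre _ _ hy.symm)
          · simp only [hx, hy, if_false] at h7
            exact hre _ _ h7
  conv_lhs => rw [h1]
  rw [map_add, map_add, LinearMap.add_apply, LinearMap.add_apply, h2, zero_add, Pi.add_apply, h3,
    add_zero, map_sum, LinearMap.sum_apply, Finset.sum_apply]

end Pool.Agent.MP_257582_lc.H60
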