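import Pool.Agent.MP_257582_lc.H60.Step

/-!
Induction on the number of components.
-/

set_option autoImplicit false
set_option maxHeartbeats 400000

namespace Pool.Agent.MP_257582_lc.H60

open Finset

variable {W : Type} [Fintype W] [DecidableEq W] {P : SimpleGraph W → Prop} {r : Sym2 W → ℕ}

theorem step {ι : Type} [Fintype ι] [DecidableEq ι] {m : ℕ} (e : ι ⊕ Fin (m + 1) ≃ W)
    (hr : Function.Injective r)
    (hmono : ∀ G H : SimpleGraph W, G ≤ H → P G → P H)
    (hstar : ∀ S G : SimpleGraph W, (∀ a b c d, S.Adj a b → S.Adj b c → S.Adj c d → a = c ∨ b = d) →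
      (∀ u v, S.Reachable u v ↔ G.Reachable u v) → P S → P G)
    (hinv : ∀ (σ : W ≃ W) (G : SimpleGraph W), P G → P (G.map σ.toEmbedding)) 
    (htop : ∀ G : SimpleGraph W, G.Connected → P G)
    (hB : ∀ (col : W → Option ι) (w0 : W) (b : Option ι), (∀ w, col w ≠ b) →
      (∀ w, col w = col w0 → w = w0) → Good P col)
    (hA : Acyc ℚ r (KK P)) (a : Fin (m + 1) → Option ι) (ha : #{j | a j = none} = 1) :
    Good P (colA e a) := by
  classical
  obtain ⟨Z0, hZ0⟩ : ∃ Z0 : Finset (ι → ℕ), ∀ c, c ∈ Z0 ↔ ∑ i, c i = m + 1 ∧ Bad e P c :=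
    ⟨(piAntidiag univ (m + 1)).filter (Bad e P), fun c => by simp⟩
  obtain ⟨Z1, hZ1⟩ : ∃ Z1 : Finset (ι → ℕ), ∀ c, c ∈ Z1 ↔ ∑ i, c i = m ∧ Bad e P c :=
    ⟨(piAntidiag univ m).filter (Bad e P), fun c => by simp⟩
  have hle := card_le_of_acyc e hr hmono hstar hinv hB hA Z0 Z1 (fun c h1 h2 => (hZ0 c).2 ⟨h1, h2⟩)
    (fun c hc => (hZ1 c).1 hc)
  have hnn : ∀ b : Fin (m + 1) → Option ι, ∑ i, #{j | b j = some i} = m + 1 → ∀ j, b j ≠ none :=
    fun b hb j hj => by
      have h1 := card_none b
      have h2 : 0 < #{j | b j = none} := card_pos.2 ⟨j, by simpa using hj⟩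
      omega
  have hcn : ∀ b : Fin (m + 1) → Option ι, (∀ j, b j ≠ none) → ∀ w, colA e b w ≠ none :=
    fun b hb w => by
      obtain ⟨p, rfl⟩ := e.surjective w
      rcases p with i | j
      · simp
      · simpa using hb j
  have S1 : ∀ c ∈ Z0, ∀ i, 0 < c i := fun c hc i => by
    obtain ⟨h1, b, h2, h3⟩ := (hZ0 c).1 hc
    by_contra h4
    have hb := hnn b (by simp [h2, h1])
    refine h3 (hB _ (e (Sum.inl i)) none (hcn b hb) (fun w hw => ?_) _
      (st_reach e b fun j _ hj _ => (hb j hj).elim))
    obtain ⟨p, rfl⟩ := e.surjective w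
    rcases p with i' | j
    · simp only [colA_inl] at hw
      rw [Option.some_injective _ hw]
    · simp only [colA_inl, colA_inr] at hw
      have : 0 < #{j | b j = some i} := card_pos.2 ⟨j, by simpa using hw⟩
      rw [h2] at this
      exact (h4 this).elim
  have S2 : ∀ c ∈ Z0, ∀ i, Function.update c i (c i - 1) ∈ Z1 := fun c hc i => by
    have hpos := S1 c hc i
    obtain ⟨h1, b, h2, h3⟩ := (hZ0 c).1 hc
    obtain ⟨j, hj⟩ := card_pos.1 ((h2 i).symm ▸ hpos)
    have hj' : b j = some i := by simpa using hj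
    refine (hZ1 _).2 ⟨?_, Function.update b j none, fun i' => ?_, fun hP => h3 (hmono _ _ ?_ hP)⟩
    · rw [sum_update_of_mem (mem_univ i)]
      rw [← add_sum_erase _ _ (mem_univ i), ← sdiff_singleton_eq_erase] at h1
      omega
    · have h4 : ({k | Function.update b j none k = some i'} : Finset (Fin (m + 1)))
          = ({k | b k = some i'} : Finset (Fin (m + 1))).erase j := by
        ext k
        by_cases hk : k = j
        · simp [hk]
        · simp [hk]
      rw [h4]
      by_cases hi : i' = i
      · subst hi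
        rw [card_erase_of_mem hj, h2, Function.update_self]
      · rw [erase_eq_of_notMem, h2, Function.update_of_ne hi]
        simp only [mem_filter, mem_univ, true_and, hj']
        exact fun h => hi (Option.some_injective _ h).symm
    · intro u v huv
      rw [st_adj] at huv ⊢
      obtain ⟨k, i', h4, h5⟩ := huv
      refine ⟨k, i', ?_, h5⟩
      by_cases hk : k = j
      · rw [hk, Function.update_self] at h4
        cases h4
      · rwa [Function.update_of_ne hk] at h4
  have hZ0e : Z0 = ∅ := by
    by_contra hne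
    have hne' := nonempty_iff_ne_empty.2 hne
    by_cases hι : ∃ i0 i1 : ι, i0 ≠ i1
    · obtain ⟨i0, i1, h01⟩ := hι
      obtain ⟨c, hc, hmax⟩ := exists_max_image Z0 (fun c => c i0) hne'
      have h1 : insert (Function.update c i1 (c i1 - 1))
          (Z0.image fun d => Function.update d i0 (d i0 - 1)) ⊆ Z1 := by
        refine insert_subset (S2 c hc i1) fun d hd => ?_
        obtain ⟨d', hd', rfl⟩ := mem_image.1 hd
        exact S2 d' hd' i0
      have h2 := card_le_card h1
      rw [card_insert_of_notMem, card_image_of_injOn] at h2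
      · omega
      · intro d hd d' hd' h
        funext i
        have h3 := congrFun h i
        by_cases hi : i = i0
        · subst hi
          simp only [Function.update_self] at h3
          have := S1 d hd i
          have := S1 d' hd' i
          omega
        · simpa [Function.update_of_ne hi] using h3
      · intro h
        obtain ⟨d, hd, h3⟩ := mem_image.1 h
        have h4 := congrFun h3 i0
        rw [Function.update_self, Function.update_of_ne h01] at h4
        have := S1 d hd i0
        have := hmax d hd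
        omega
    · obtain ⟨c, hc⟩ := hne'
      obtain ⟨h1, b, h2, h3⟩ := (hZ0 c).1 hc
      have hb' := hnn b (by simp [h2, h1])
      have hb := hcn b hb'
      haveI : Nonempty W := ⟨e (Sum.inr 0)⟩
      refine h3 (htop _ ⟨fun u v => (st_reach e b (fun j _ hj _ => (hb' j hj).elim) u v).2 ?_⟩)
      obtain ⟨i, hi⟩ := Option.ne_none_iff_exists'.1 (hb u)
      obtain ⟨i', hi'⟩ := Option.ne_none_iff_exists'.1 (hb v)
      by_contra h
      exact hι ⟨i, i', fun h' => h (by rw [hi, hi', h'])⟩
  intro G hG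
  refine hstar _ _ (st_star e a) (fun u v => ?_) (not_not.1 fun hP => ?_)
  · rw [hG, st_reach e a fun j j' hj hj' =>
      card_le_one.1 ha.le _ (by simpa using hj) _ (by simpa using hj')]
  have h1 : (fun i => #{j | a j = some i}) ∈ Z1 := (hZ1 _).2 ⟨by
    have := card_none a
    omega, a, fun _ => rfl, hP⟩
  have h2 := card_pos.2 ⟨_, h1⟩
  rw [hZ0e, card_empty] at hle
  omega

theorem all_levels (hr : Function.Injective r) (hW : 2 ≤ Fintype.card W)
    (hmono : ∀ G H : SimpleGraph W, G ≤ H → P G → P H)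
    (hstar : ∀ S G : SimpleGraph W, (∀ a b c d, S.Adj a b → S.Adj b c → S.Adj c d → a = c ∨ b = d) →
      (∀ u v, S.Reachable u v ↔ G.Reachable u v) → P S → P G)
    (hinv : ∀ (σ : W ≃ W) (G : SimpleGraph W), P G → P (G.map σ.toEmbedding)) 
    (htop : ∀ G : SimpleGraph W, G.Connected → P G)
    (hA : Acyc ℚ r (KK P)) (k : ℕ) :
    ∀ (β : Type) [DecidableEq β] (col : W → β) (w0 : W), #(univ.image col) ≤ k + 1 →
      (∀ w, col w = col w0 → w = w0) → Good P col := by
  classical
  induction k with
  | zero =>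
    intro β _ col w0 h1 h2
    have h3 : ∀ w, w = w0 := fun w => h2 w
      (card_le_one.1 h1 _ (mem_image_of_mem _ (mem_univ _)) _ (mem_image_of_mem _ (mem_univ _)))
    have := Fintype.card_le_one_iff.2 fun a b => (h3 a).trans (h3 b).symm
    omega
  | succ k ih =>
    intro β _ col w0 h1 h2
    let ι : Type := ↥((univ.image col).erase (col w0))
    have hι : Fintype.card ι ≤ k + 1 := by
      rw [Fintype.card_coe, card_erase_of_mem (mem_image_of_mem _ (mem_univ _))]
      omega
    have hrep : ∀ b : ι, ∃ w, col w = b.1 := fun b => by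
      obtain ⟨w, _, hw⟩ := mem_image.1 (mem_of_mem_erase b.2)
      exact ⟨w, hw⟩
    choose rep hrep using hrep
    have hinj : Function.Injective rep := fun b b' h => Subtype.ext (by rw [← hrep, ← hrep, h])
    have hw0 : w0 ∈ (Set.range rep)ᶜ := by
      rintro ⟨b, hb⟩
      exact ne_of_mem_erase b.2 (by rw [← hrep, hb])
    obtain ⟨m, hm⟩ := Nat.exists_eq_succ_of_ne_zero
      (Fintype.card_pos_iff.2 ⟨(⟨w0, hw0⟩ : ↥(Set.range rep)ᶜ)⟩).ne'
    let g : ↥(Set.range rep)ᶜ ≃ Fin (m + 1) := Fintype.equivFinOfCardEq hm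
    let e : ι ⊕ Fin (m + 1) ≃ W :=
      (Equiv.sumCongr (Equiv.ofInjective rep hinj) g.symm).trans (Equiv.Set.sumCompl _)
    have he1 : ∀ b, e (Sum.inl b) = rep b := fun _ => rfl
    have he2 : e (Sum.inr (g ⟨w0, hw0⟩)) = w0 := by simp [e]
    let F : W → Option ι := fun w => if h : col w = col w0 then none else
      some ⟨col w, mem_erase.2 ⟨h, mem_image_of_mem _ (mem_univ _)⟩⟩
    have hF : colA e (fun j => F (e (Sum.inr j))) = F := by
      funext w
      obtain ⟨p, rfl⟩ := e.surjective w
      rcases p with b | j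
      · have h3 : ¬ col (rep b) = col w0 := by rw [hrep]; exact ne_of_mem_erase b.2
        rw [colA_inl, he1]
        simp only [F, dif_neg h3]
        exact congrArg some (Subtype.ext (hrep b).symm)
      · rw [colA_inr]
    have h3 := step e hr hmono hstar hinv htop (fun col' w1 b hb h4 => ih _ col' w1 (by
      have h5 : univ.image col' ⊆ univ.erase b := fun o ho => by
        obtain ⟨w, _, rfl⟩ := mem_image.1 ho
        exact mem_erase.2 ⟨hb w, mem_univ _⟩
      have h6 := card_le_card h5
      rw [card_erase_of_mem (mem_univ _), card_univ, Fintype.card_option] at h6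
      omega) h4) hA (fun j => F (e (Sum.inr j))) (by
      rw [card_eq_one]
      refine ⟨g ⟨w0, hw0⟩, ?_⟩
      ext j
      simp only [mem_filter, mem_univ, true_and, mem_singleton]
      constructor
      · intro h
        by_cases h4 : col (e (Sum.inr j)) = col w0
        · exact Sum.inr_injective (e.injective ((h2 _ h4).trans he2.symm))
        · simp [F, dif_neg h4] at h
      · rintro rfl
        rw [he2]
        exact dif_pos rfl)
    rw [hF] at h3
    intro G hG
    refine h3 G fun u v => ?_
    rw [hG]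
    refine ⟨fun h5 => by simp only [F, h5], fun h5 => ?_⟩
    by_cases hu : col u = col w0 <;> by_cases hv : col v = col w0
    · exact hu.trans hv.symm
    · simp [F, dif_pos hu, dif_neg hv] at h5
    · simp [F, dif_neg hu, dif_pos hv] at h5
    · simp only [F, dif_neg hu, dif_neg hv] at h5
      exact congrArg Subtype.val (Option.some_injective _ h5)

theorem acyc_KK {n : ℕ} (hn : 2 ≤ n) {P : SimpleGraph (Fin n) → Prop}
    (hS : Setup n (n.choose 2 - 1) fun G => ¬ P G) {r : Sym2 (Fin n) → ℕ}
    (hr : Function.Injective r) : Acyc ℚ r (KK P) := by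
  obtain ⟨r', hr'⟩ := exists_rank {a : Sym2 (Fin n) // ¬ a.IsDiag}
  have h1 := hS.acyc ℚ {a : Sym2 (Fin n) // ¬ a.IsDiag} (Function.Embedding.subtype _) ∅ r' hr' (by
    rw [Sym2.card_subtype_not_diag, Fintype.card_fin]
    have := Nat.choose_pos hn
    omega)
  rw [acyc_map_iff hr' hr (Function.Embedding.subtype _)] at h1
  have h2 : KK P = {τ | ∃ σ ∈ {A : Finset {a : Sym2 (Fin n) // ¬ a.IsDiag} |
      ¬ P (SimpleGraph.fromEdgeSet ((∅ ∪ A.map (Function.Embedding.subtype _) :
        Finset (Sym2 (Fin n))) : Set (Sym2 (Fin n))))},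
      σ.map (Function.Embedding.subtype _) = τ} := by
    ext τ
    constructor
    · intro h
      obtain ⟨σ, rfl⟩ := exists_map_eq (Function.Embedding.subtype
        fun a : Sym2 (Fin n) => ¬ a.IsDiag) (τ := τ) fun w hw => ⟨⟨w, h.1 w hw⟩, rfl⟩
      exact ⟨σ, by rw [Set.mem_ofPred_eq, empty_union]; exact h.2, rfl⟩
    · rintro ⟨σ, h, rfl⟩
      rw [Set.mem_ofPred_eq, empty_union] at h
      refine ⟨fun a ha => ?_, h⟩
      obtain ⟨b, _, rfl⟩ := mem_map.1 ha
      exact b.2
  rw [h2]
  exact h1

theorem not_setup {n : ℕ} {P : SimpleGraph (Fin n) → Prop}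
    (hmono : ∀ G H : SimpleGraph (Fin n), G ≤ H → P G → P H)
    (hinv : ∀ (σ : Fin n ≃ Fin n) (G : SimpleGraph (Fin n)), P G → P (G.map σ.toEmbedding))
    (htop : ∀ G : SimpleGraph (Fin n), G.Connected → P G)
    (hstar : ∀ S G : SimpleGraph (Fin n),
      (∀ a b c d, S.Adj a b → S.Adj b c → S.Adj c d → a = c ∨ b = d) →
      (∀ u v, S.Reachable u v ↔ G.Reachable u v) → P S → P G)
    (hS : Setup n (n.choose 2 - 1) fun G => ¬ P G) : False := by
  have hn : 2 ≤ n := by
    by_contra h
    refine hS.bot (hmono _ _ (fun u v huv => ?_) (not_not.1 hS.top))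
    exact (huv.ne (Fin.ext (by omega))).elim
  obtain ⟨r, hr⟩ := exists_rank (Sym2 (Fin n))
  exact hS.bot (all_levels hr (by simpa using hn) hmono hstar hinv htop (acyc_KK hn hS hr) n
    (Fin n) id ⟨0, by omega⟩ (by simp) (fun _ h => h) ⊥ fun u v => SimpleGraph.reachable_bot)

end Pool.Agent.MP_257582_lc.H60
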