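import Pool.Agent.MP_257582_lc.H60.Cells

/-!
The inductive step: a strict shadow inequality contradicts acyclicity.
-/

set_option autoImplicit false
set_option maxHeartbeats 400000

namespace Pool.Agent.MP_257582_lc.H60

open Finset

variable {W ι : Type} [Fintype W] [DecidableEq W] [Fintype ι] [DecidableEq ι] {m : ℕ}
  (e : ι ⊕ Fin (m + 1) ≃ W) {r : Sym2 W → ℕ} (hr : Function.Injective r)
  {P : SimpleGraph W → Prop}

omit [Fintype ι] [DecidableEq ι] in
lemma Cyc_ne_zero {cell : Fin m → Option ι × ℕ} {σ : Finset (Sym2 W)}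
    (h : Cyc e hr cell σ ≠ 0) : ∃ π, ∀ a ∈ σ, ∃ t, a = se e cell π t := by
  unfold Cyc at h
  rw [Finset.sum_apply] at h
  obtain ⟨π, _, h1⟩ := exists_ne_zero_of_sum_ne_zero h
  refine ⟨π, fun a ha => ?_⟩
  obtain ⟨t, ht⟩ := (Alt_supp hr _ _ (right_ne_zero_of_mul h1)).1 a ha
  refine ⟨t, ?_⟩
  by_contra h2
  exact ht (Pi.single_eq_of_ne h2 _)

omit [Fintype W] [DecidableEq W] [Fintype ι] [DecidableEq ι] in
lemma se_eq {cell : Fin m → Option ι × ℕ} {t : Fin m} {i : ι} (h : (cell t).1 = some i)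
    (π : Equiv.Perm (Fin (m + 1))) :
    se e cell π t = s(e (Sum.inr (π t.succ)), e (Sum.inl i)) := by
  unfold se
  rw [h]
  rfl

omit [Fintype W] [DecidableEq W] [Fintype ι] [DecidableEq ι] in
lemma star_inj {j j' : Fin (m + 1)} {i i' : ι}
    (h : s(e (Sum.inr j), e (Sum.inl i)) = s(e (Sum.inr j'), e (Sum.inl i'))) :
    j = j' ∧ i = i' := by
  rcases Sym2.eq_iff.1 h with ⟨h1, h2⟩ | ⟨h1, _⟩
  · exact ⟨Sum.inr_injective (e.injective h1), Sum.inl_injective (e.injective h2)⟩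
  · cases e.injective h1

omit [Fintype ι] [DecidableEq ι] in
lemma Psi_eq_Cyc {c : ι → ℕ} {cell : Fin m → Option ι × ℕ} (h : En c cell)
    {σ : Finset (Sym2 W)} (hσ : ∀ a ∈ σ, ∃ j i, a = s(e (Sum.inr j), e (Sum.inl i))) :
    Psi e hr cell σ = Cyc e hr cell σ := by
  unfold Psi Cyc
  rw [Finset.sum_apply, Finset.sum_apply]
  refine sum_congr rfl fun π _ => ?_
  rw [Pi.smul_apply, Pi.smul_apply, Alt_congr hr _ _ σ]
  intro t a ha
  obtain ⟨j, i, rfl⟩ := hσ a ha
  obtain ⟨i0, h1, h2, _⟩ := h.mem t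
  rw [se_eq e h1]
  by_cases h3 : s(e (Sum.inr j), e (Sum.inl i)) = s(e (Sum.inr (π t.succ)), e (Sum.inl i0))
  · rw [h3, Pi.single_eq_same]
    refine if_pos ⟨e (Sum.inl i0), ?_, ?_, rfl⟩
    · rw [colC_inl, colC_inr]; exact h1.symm
    · rw [htC_inl, htC_inr]; exact h2
  · rw [Pi.single_eq_of_ne h3]
    by_contra h4
    obtain ⟨u, h5, _, h6⟩ := FF_ne_zero h4
    rcases Sym2.eq_iff.1 h6 with ⟨h7, rfl⟩ | ⟨_, h7⟩
    · rw [colC_inl, colC_inr] at h5
      obtain rfl : i = i0 := Option.some_injective _ (h5.trans h1)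
      exact h3 (by rw [h7])
    · cases e.injective h7

omit [Fintype ι] in
lemma star_eval {c c' : ι → ℕ} {cell cell' : Fin m → Option ι × ℕ} (h : En c cell)
    (h' : En c' cell') (π : Equiv.Perm (Fin (m + 1)))
    (h0 : (Alt hr fun t => Pi.single (se e cell π t) (1 : ℚ)) (univ.image (se e cell' 1)) ≠ 0) :
    c = c' ∧ (((Equiv.Perm.sign π : ℤ) : ℚ) • Alt hr fun t => Pi.single (se e cell π t) (1 : ℚ))
      = Alt hr fun t => Pi.single (se e cell' 1 t) (1 : ℚ) := by
  have key : ∀ t, ∃ s, π t.succ = s.succ ∧ (cell t).1 = (cell' s).1 := fun t => by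
    obtain ⟨a, ha, h1⟩ := (Alt_supp hr _ _ h0).2 t
    obtain ⟨s, _, rfl⟩ := mem_image.1 ha
    have h2 : se e cell' 1 s = se e cell π t := by
      by_contra h2
      exact h1 (Pi.single_eq_of_ne h2 _)
    obtain ⟨i, h3, _⟩ := h.mem t
    obtain ⟨i', h4, _⟩ := h'.mem s
    rw [se_eq e h3, se_eq e h4] at h2
    obtain ⟨h5, h6⟩ := star_inj e h2
    exact ⟨s, h5.symm, by rw [h3, h4, h6]⟩
  choose g hg1 hg2 using key
  have hinj : Function.Injective g := fun s t hst =>
    Fin.succ_injective _ (π.injective (by rw [hg1, hg1, hst]))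
  let ρ : Equiv.Perm (Fin m) := Equiv.ofBijective g (Finite.injective_iff_bijective.1 hinj)
  have hρ : ∀ t, ρ t = g t := fun _ => rfl
  have hπ0 : π 0 = 0 := by
    by_contra h1
    obtain ⟨s, hs⟩ := Fin.exists_succ_eq.2 h1
    have : π (ρ.symm s).succ = π 0 := by rw [hg1, ← hρ, Equiv.apply_symm_apply, hs]
    exact Fin.succ_ne_zero _ (π.injective this)
  have hπ : π = Equiv.Perm.decomposeFin.symm (0, ρ) := by
    ext j
    refine Fin.cases ?_ (fun t => ?_) j
    · rw [hπ0, Equiv.Perm.decomposeFin_symm_apply_zero]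
    · rw [hg1, Equiv.Perm.decomposeFin_symm_apply_succ, hρ]; simp
  have hs : Equiv.Perm.sign π = Equiv.Perm.sign ρ := by
    rw [hπ, Equiv.Perm.decomposeFin.symm_sign]; simp
  refine ⟨funext fun i => ?_, ?_⟩
  · rw [← h.card i, ← h'.card i]
    exact card_equiv ρ (fun t => by simp [hρ, hg2])
  · have h1 : ∀ t, se e cell π t = se e cell' 1 (ρ t) := fun t => by
      unfold se
      rw [hg1, hg2, hρ]; rfl
    simp only [h1]
    rw [Alt_perm hr (fun t => Pi.single (se e cell' 1 t) (1 : ℚ)) ρ, smul_smul, hs]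
    rcases Int.units_eq_one_or (Equiv.Perm.sign ρ) with h2 | h2 <;> simp [h2]

omit [Fintype ι] in
lemma Cyc_eval_ne {c c' : ι → ℕ} {cell cell' : Fin m → Option ι × ℕ} (h : En c cell)
    (h' : En c' cell') (hc : c ≠ c') : Cyc e hr cell (univ.image (se e cell' 1)) = 0 := by
  unfold Cyc
  rw [Finset.sum_apply]
  refine sum_eq_zero fun π _ => ?_
  by_contra h0
  exact hc (star_eval e hr h h' π (right_ne_zero_of_mul h0)).1

omit [Fintype ι] in
lemma Cyc_eval_self {c : ι → ℕ} {cell : Fin m → Option ι × ℕ} (h : En c cell) :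
    Cyc e hr cell (univ.image (se e cell 1)) ≠ 0 := by
  set A := (Alt hr fun t => Pi.single (se e cell 1 t) (1 : ℚ)) (univ.image (se e cell 1)) with hA
  have hA0 : A ≠ 0 := Alt_single_ne_zero hr _ fun s t hst => by
    obtain ⟨i, h3, _⟩ := h.mem s
    obtain ⟨i', h4, _⟩ := h.mem t
    rw [se_eq e h3, se_eq e h4] at hst
    exact Fin.succ_injective _ (star_inj e hst).1
  have : 0 < Cyc e hr cell (univ.image (se e cell 1)) * A := by
    unfold Cyc
    rw [Finset.sum_apply, sum_mul]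
    refine sum_pos' (fun π _ => ?_) ⟨1, mem_univ _, ?_⟩
    · by_cases h0 : (Alt hr fun t => Pi.single (se e cell π t) (1 : ℚ))
        (univ.image (se e cell 1)) = 0
      · simp [h0]
      · rw [(star_eval e hr h h π h0).2]
        exact mul_self_nonneg _
    · rw [Equiv.Perm.sign_one, Units.val_one, Int.cast_one, one_smul]
      exact mul_self_pos.2 hA0
  exact left_ne_zero_of_mul this.ne'

/-- some arrangement of content `c` fails the property -/
def Bad (P : SimpleGraph W → Prop) (c : ι → ℕ) : Prop :=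
  ∃ a : Fin (m + 1) → Option ι, (∀ i, #{j | a j = some i} = c i) ∧ ¬ P (st e a)

omit [Fintype W] [DecidableEq W] in
lemma card_none (a : Fin (m + 1) → Option ι) :
    #{j | a j = none} + ∑ i, #{j | a j = some i} = m + 1 := by
  have := card_eq_sum_card_fiberwise (f := a) (s := univ) (t := univ) (fun _ _ => mem_univ _)
  rw [Fintype.sum_option] at this
  simpa using this.symm

omit [Fintype W] [DecidableEq W] in
lemma bad_all (hmono : ∀ G H : SimpleGraph W, G ≤ H → P G → P H)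
    (hinv : ∀ (σ : W ≃ W) (G : SimpleGraph W), P G → P (G.map σ.toEmbedding))
    {c : ι → ℕ} (h : Bad e P c) (a : Fin (m + 1) → Option ι)
    (ha : ∀ i, #{j | a j = some i} = c i) : ¬ P (st e a) := by
  obtain ⟨b, hb, hP⟩ := h
  have hcard : ∀ o, Fintype.card {j // a j = o} = Fintype.card {j // b j = o} := fun o => by
    rw [Fintype.card_subtype, Fintype.card_subtype]
    cases o with
    | none =>
      have h1 := card_none a
      have h2 := card_none b
      simp only [ha] at h1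
      simp only [hb] at h2
      omega
    | some i => rw [ha, hb]
  let τ : Fin (m + 1) ≃ Fin (m + 1) :=
    Equiv.ofFiberEquiv (f := a) (g := b) fun o => Fintype.equivOfCardEq (hcard o)
  have hτ : ∀ j, b (τ j) = a j := Equiv.ofFiberEquiv_map _
  let φ : W ≃ W := (e.symm.trans (Equiv.sumCongr (Equiv.refl ι) τ)).trans e
  have hφ1 : ∀ i, φ (e (Sum.inl i)) = e (Sum.inl i) := fun i => by simp [φ]
  have hφ2 : ∀ j, φ (e (Sum.inr j)) = e (Sum.inr (τ j)) := fun j => by simp [φ]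
  intro hPa
  refine hP (hmono _ _ (fun u v huv => ?_) (hinv φ _ hPa))
  rw [SimpleGraph.map_adj] at huv
  obtain ⟨x, y, hxy, rfl, rfl⟩ := huv
  rw [st_adj] at hxy ⊢
  obtain ⟨j, i, h1, ⟨rfl, rfl⟩ | ⟨rfl, rfl⟩⟩ := hxy
  · exact ⟨τ j, i, (hτ j).trans h1, Or.inl ⟨hφ2 j, hφ1 i⟩⟩
  · exact ⟨τ j, i, (hτ j).trans h1, Or.inr ⟨hφ2 j, hφ1 i⟩⟩

lemma Cyc_supp (hmono : ∀ G H : SimpleGraph W, G ≤ H → P G → P H)
    (hinv : ∀ (σ : W ≃ W) (G : SimpleGraph W), P G → P (G.map σ.toEmbedding))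
    {c : ι → ℕ} (hc : Bad e P c) {cell : Fin m → Option ι × ℕ} (h : En c cell) :
    Supp (KK P) (Cyc e hr cell) := by
  intro σ hσ
  by_contra h0
  obtain ⟨π, hπ⟩ := Cyc_ne_zero e hr h0
  refine hσ ⟨fun a ha => ?_, fun hP => ?_⟩
  · obtain ⟨t, rfl⟩ := hπ a ha
    obtain ⟨i, h1, _⟩ := h.mem t
    rw [se_eq e h1, Sym2.mk_isDiag_iff]
    intro h2
    cases e.injective h2
  · refine bad_all e hmono hinv hc (fun j => (c0 cell (π.symm j)).1) (fun i => ?_) (hmono _ _ ?_ hP)
    · rw [← h.card i]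
      symm
      refine card_bij (fun t _ => π t.succ) (fun t ht => ?_) (fun s _ t _ hst => ?_)
        (fun j hj => ?_)
      · simpa [c0] using ht
      · exact Fin.succ_injective _ (π.injective hst)
      · obtain ⟨k, rfl⟩ := π.surjective j
        revert hj
        refine Fin.cases (fun hj => ?_) (fun t hj => ⟨t, ?_, rfl⟩) k
        · simp [c0] at hj
        · simpa [c0] using hj
    · intro u v huv
      rw [SimpleGraph.fromEdgeSet_adj] at huv
      obtain ⟨t, ht⟩ := hπ _ huv.1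
      obtain ⟨i, h1, _⟩ := h.mem t
      rw [se_eq e h1] at ht
      refine (st_adj e _ _ _).2 ⟨π t.succ, i, by rw [Equiv.symm_apply_apply]; exact h1, ?_⟩
      rcases Sym2.eq_iff.1 ht with ⟨rfl, rfl⟩ | ⟨rfl, rfl⟩
      · exact Or.inl ⟨rfl, rfl⟩
      · exact Or.inr ⟨rfl, rfl⟩

include hr in
theorem card_le_of_acyc (hmono : ∀ G H : SimpleGraph W, G ≤ H → P G → P H)
    (hstar : ∀ S G : SimpleGraph W, (∀ a b c d, S.Adj a b → S.Adj b c → S.Adj c d → a = c ∨ b = d) →
      (∀ u v, S.Reachable u v ↔ G.Reachable u v) → P S → P G)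
    (hinv : ∀ (σ : W ≃ W) (G : SimpleGraph W), P G → P (G.map σ.toEmbedding))
    (hB : ∀ (col : W → Option ι) (w0 : W) (b : Option ι), (∀ w, col w ≠ b) →
      (∀ w, col w = col w0 → w = w0) → Good P col)
    (hA : Acyc ℚ r (KK P)) (Z0 Z1 : Finset (ι → ℕ))
    (h0 : ∀ c, ∑ i, c i = m + 1 → Bad e P c → c ∈ Z0)
    (h1 : ∀ c ∈ Z1, ∑ i, c i = m ∧ Bad e P c) : #Z1 ≤ #Z0 := by
  by_contra hlt
  let T : (Z1 → ℚ) →ₗ[ℚ] (Z0 → ℚ) :=
    { toFun := fun l c => ∑ c' : Z1, ∑ i, if c'.1 + Pi.single i 1 = c.1 then l c' else 0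
      map_add' := fun l l' => by
        funext c
        simp only [Pi.add_apply, ← sum_add_distrib]
        refine sum_congr rfl fun c' _ => sum_congr rfl fun i _ => ?_
        split_ifs <;> simp
      map_smul' := fun a l => by
        funext c
        simp [mul_sum] }
  have hker : LinearMap.ker T ≠ ⊥ := T.ker_ne_bot_of_finrank_lt (by simpa using hlt)
  obtain ⟨l, hl, hl0⟩ := Submodule.exists_mem_ne_zero_of_ne_bot hker
  have hT : ∀ c : Z0, ∑ c' : Z1, ∑ i, (if c'.1 + Pi.single i 1 = c.1 then l c' else 0) = 0 :=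
    fun c => congrFun (LinearMap.mem_ker.1 hl) c
  choose cell hcell using fun c' : Z1 => exists_en (h1 c'.1 c'.2).1
  obtain ⟨Z, hZ⟩ : ∃ Z, Z = ∑ c' : Z1, l c' • Cyc e hr (cell c') := ⟨_, rfl⟩
  obtain ⟨Ψ, hΨ⟩ : ∃ Ψ, Ψ = ∑ c' : Z1, l c' • Psi e hr (cell c') := ⟨_, rfl⟩
  have hsupp : Supp (KK P) Z := by
    rw [hZ]
    refine Supp.sum _ fun c' _ σ hσ => ?_
    rw [Pi.smul_apply, Cyc_supp e hr hmono hinv (h1 c'.1 c'.2).2 (hcell c') σ hσ, smul_zero]
  have hbd : bd r Z = 0 := by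
    rw [hZ, map_sum]
    exact sum_eq_zero fun c' _ => by rw [map_smul, bd_Cyc, smul_zero]
  have hco : ∀ σ ∈ KK P, CC r 1 Ψ σ = 0 := fun σ hσ => by
    classical
    let φ : (ι → ℕ) → ℚ := fun c =>
      if h : ∑ i, c i = m + 1 then Phi e hr (exists_en h).choose σ else 0
    have hφ : ∀ (c' : Z1) (i : ι),
        l c' * Phi e hr (Fin.cons (some i, c'.1 i + 1) (cell c')) σ
          = ∑ c : Z0, (if c'.1 + Pi.single i 1 = c.1 then l c' else 0) * φ c.1 := by
      intro c' i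
      have hs : ∑ j, (c'.1 + Pi.single i 1 : ι → ℕ) j = m + 1 := by
        simp [sum_add_distrib, (h1 c'.1 c'.2).1]
      by_cases hz : Phi e hr (Fin.cons (some i, c'.1 i + 1) (cell c')) σ = 0
      · rw [hz, mul_zero]
        refine (sum_eq_zero fun c _ => ?_).symm
        split_ifs with hc
        · have : φ c.1 = 0 := by
            simp only [φ, ← hc, dif_pos hs]
            rw [Phi_en e hr ((hcell c').cons i) (exists_en hs).choose_spec, hz]
          rw [this, mul_zero]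
        · rw [zero_mul]
      · have hmem := h0 _ hs (Phi_ne_zero e hr hstar ((hcell c').cons i) hσ hz)
        rw [sum_eq_single ⟨_, hmem⟩]
        · rw [if_pos rfl]
          simp only [φ, dif_pos hs]
          rw [Phi_en e hr ((hcell c').cons i) (exists_en hs).choose_spec]
        · intro c _ hc
          rw [if_neg (fun h => hc (Subtype.ext h.symm)), zero_mul]
        · simp
    rw [hΨ, map_sum, Finset.sum_apply]
    simp only [map_smul, Pi.smul_apply, smul_eq_mul,
      fun c' : Z1 => cobd_Psi e hr hB (hcell c') σ hσ, mul_sum, hφ]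
    calc ∑ c' : Z1, ∑ i, ∑ c : Z0, (if c'.1 + Pi.single i 1 = c.1 then l c' else 0) * φ c.1
        = ∑ c : Z0, (∑ c' : Z1, ∑ i, if c'.1 + Pi.single i 1 = c.1 then l c' else 0) * φ c.1 := by
          simp only [sum_mul]
          rw [sum_comm (s := (univ : Finset Z0))]
          exact sum_congr rfl fun c' _ => sum_comm
      _ = 0 := sum_eq_zero fun c _ => by rw [hT, zero_mul]
  have hpr := pr_eq_zero_of_acyc hA hsupp hbd hco
  have hZZ : pr Z Ψ = pr Z Z := sum_congr rfl fun σ _ => by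
    by_cases hz : Z σ = 0
    · rw [hz, zero_mul, zero_mul]
    · have hz' := hz
      rw [hZ, Finset.sum_apply] at hz'
      obtain ⟨c', _, h2⟩ := exists_ne_zero_of_sum_ne_zero hz'
      obtain ⟨π, hπ⟩ := Cyc_ne_zero e hr (right_ne_zero_of_mul h2)
      have h3 : ∀ a ∈ σ, ∃ j i, a = s(e (Sum.inr j), e (Sum.inl i)) := fun a ha => by
        obtain ⟨t, rfl⟩ := hπ a ha
        obtain ⟨i, h4, _⟩ := (hcell c').mem t
        exact ⟨_, i, se_eq e h4 π⟩
      refine congrArg (Z σ * ·) ?_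
      rw [hZ, hΨ, Finset.sum_apply, Finset.sum_apply]
      exact sum_congr rfl fun c'' _ => by
        rw [Pi.smul_apply, Pi.smul_apply, Psi_eq_Cyc e hr (hcell c'') h3]
  have hZ0 : Z = 0 := eq_zero_of_pr_self (hZZ.symm.trans hpr)
  refine hl0 (funext fun c => ?_)
  have h2 := congrFun hZ0 (univ.image (se e (cell c) 1))
  rw [hZ, Finset.sum_apply, sum_eq_single c] at h2
  · exact (mul_eq_zero.1 h2).resolve_right (Cyc_eval_self e hr (hcell c))
  · intro c' _ hc
    rw [Pi.smul_apply, Cyc_eval_ne e hr (hcell c') (hcell c) (fun h => hc (Subtype.ext h)),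
      smul_zero]
  · simp

end Pool.Agent.MP_257582_lc.H60
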