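import Pool.Agent.MP_257582_lc.Blow

/-!
Wedge products of linear forms in the fermionic Fock space, the pairing, and support lemmas.
-/

set_option autoImplicit false

namespace Pool.Agent.MP_257582_lc.H60

open Finset

variable {V : Type*} [Fintype V] [DecidableEq V]

/-- the standard pairing -/
def pr (z w : Finset V → ℚ) : ℚ := ∑ σ, z σ * w σ

omit [DecidableEq V] in
lemma pr_comm (z w : Finset V → ℚ) : pr z w = pr w z :=
  sum_congr rfl fun _ _ => mul_comm _ _

omit [DecidableEq V] in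
lemma pr_sum_left {ι : Type*} (s : Finset ι) (z : ι → Finset V → ℚ) (w : Finset V → ℚ) :
    pr (∑ i ∈ s, z i) w = ∑ i ∈ s, pr (z i) w := by
  unfold pr
  simp_rw [Finset.sum_apply, sum_mul]
  exact sum_comm

omit [DecidableEq V] in
lemma pr_smul_left (c : ℚ) (z w : Finset V → ℚ) : pr (c • z) w = c * pr z w := by
  unfold pr
  rw [mul_sum]
  exact sum_congr rfl fun _ _ => by simp [mul_assoc]

omit [DecidableEq V] in
lemma pr_self_nonneg (z : Finset V → ℚ) : 0 ≤ pr z z :=
  sum_nonneg fun _ _ => mul_self_nonneg _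

omit [DecidableEq V] in
lemma eq_zero_of_pr_self {z : Finset V → ℚ} (h : pr z z = 0) : z = 0 := by
  ext σ
  have := (sum_eq_zero_iff_of_nonneg fun τ _ => mul_self_nonneg (z τ)).1 h σ (mem_univ σ)
  exact mul_self_eq_zero.1 this

lemma pr_ann (r : V → ℕ) (a : V) (z w : Finset V → ℚ) :
    pr (ann r a z) w = pr z (cre r a w) := by
  unfold pr
  simp only [ann_apply, cre_apply, ite_mul, mul_ite, zero_mul, mul_zero]
  rw [← sum_filter_add_sum_filter_not univ (fun σ : Finset V => a ∈ σ),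
    ← sum_filter_add_sum_filter_not univ (fun σ : Finset V => a ∈ σ)
      (fun σ => if a ∈ σ then z σ * (sg ℚ r σ a * w (σ.erase a)) else 0)]
  rw [sum_eq_zero (s := filter (fun σ : Finset V => a ∈ σ) univ)
      (fun σ hσ => by rw [if_pos (mem_filter.1 hσ).2]),
    sum_eq_zero (s := filter (fun σ : Finset V => ¬ a ∈ σ) univ)
      (f := fun σ => if a ∈ σ then z σ * (sg ℚ r σ a * w (σ.erase a)) else 0)
      (fun σ hσ => by rw [if_neg (mem_filter.1 hσ).2]), zero_add, add_zero]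
  refine sum_nbij' (fun σ => insert a σ) (fun σ => σ.erase a) (fun σ _ => by simp)
    (fun σ _ => by simp) (fun σ hσ => erase_insert (mem_filter.1 hσ).2)
    (fun σ hσ => insert_erase (mem_filter.1 hσ).2) (fun σ hσ => ?_)
  have h := (mem_filter.1 hσ).2
  rw [if_neg h, if_pos (mem_insert_self a σ), erase_insert h, sg_insert_self]
  ring

lemma cre_cre {r : V → ℕ} (hr : Function.Injective r) (a b : V) (z : Finset V → ℚ) :
    cre r a (cre r b z) = - cre r b (cre r a z) := by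
  have key : ∀ w, pr w (cre r a (cre r b z) + cre r b (cre r a z)) = 0 := fun w => by
    have : pr w (cre r a (cre r b z) + cre r b (cre r a z))
        = pr w (cre r a (cre r b z)) + pr w (cre r b (cre r a z)) := by
      unfold pr
      rw [← sum_add_distrib]
      exact sum_congr rfl fun _ _ => by simp [mul_add]
    rw [this, ← pr_ann, ← pr_ann, ← pr_ann, ← pr_ann, ann_ann hr b a, ← neg_one_smul ℚ,
      pr_smul_left]
    ring
  exact eq_neg_of_add_eq_zero_left (eq_zero_of_pr_self (key _))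

/-- creation operator of a linear form -/
def CC (r : V → ℕ) : (V → ℚ) →ₗ[ℚ] Module.End ℚ (Finset V → ℚ) where
  toFun η := ∑ a, η a • cre r a
  map_add' η θ := by simp [add_smul, sum_add_distrib]
  map_smul' c η := by simp [smul_sum, mul_smul]

lemma CC_apply (r : V → ℕ) (η : V → ℚ) (z : Finset V → ℚ) :
    CC r η z = ∑ a, η a • cre r a z := by
  simp [CC, LinearMap.sum_apply]

lemma CC_sq {r : V → ℕ} (hr : Function.Injective r) (η : V → ℚ) : CC r η * CC r η = 0 := by
  refine LinearMap.ext fun z => ?_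
  have h1 : CC r η (CC r η z) = ∑ a, ∑ b, (η a * η b) • cre r a (cre r b z) := by
    rw [CC_apply]
    refine sum_congr rfl fun a _ => ?_
    rw [CC_apply, map_sum, smul_sum]
    exact sum_congr rfl fun b _ => by rw [map_smul, mul_smul]
  have h2 : ∑ a, ∑ b, (η a * η b) • cre r a (cre r b z)
      = - ∑ a, ∑ b, (η a * η b) • cre r a (cre r b z) := by
    conv_lhs => rw [sum_comm]
    rw [← sum_neg_distrib]
    refine sum_congr rfl fun a _ => ?_
    rw [← sum_neg_distrib]
    refine sum_congr rfl fun b _ => ?_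
    rw [cre_cre hr b a, smul_neg, mul_comm]
  have h3 : (2 : ℚ) • ∑ a, ∑ b, (η a * η b) • cre r a (cre r b z) = 0 := by
    rw [two_smul]
    exact add_eq_zero_iff_eq_neg.2 h2
  rw [Module.End.mul_apply, h1, LinearMap.zero_apply]
  exact (smul_eq_zero.1 h3).resolve_left two_ne_zero

lemma pr_bd (r : V → ℕ) (z w : Finset V → ℚ) : pr (bd r z) w = pr z (CC r 1 w) := by
  rw [bd_eq, pr_sum_left, CC_apply, pr_comm z, pr_sum_left]
  exact sum_congr rfl fun a _ => by rw [pr_ann, Pi.one_apply, one_smul, pr_comm]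

lemma bd_CC {r : V → ℕ} (hr : Function.Injective r) (η : V → ℚ) (z : Finset V → ℚ) :
    bd r (CC r η z) = (∑ a, η a) • z - CC r η (bd r z) := by
  rw [CC_apply, CC_apply, map_sum, sum_smul, ← sum_sub_distrib]
  exact sum_congr rfl fun a _ => by rw [map_smul, bd_cre hr, smul_sub]

/-- the vacuum vector -/
def vac : Finset V → ℚ := fun σ => if σ = ∅ then 1 else 0

lemma bd_vac (r : V → ℕ) : bd r (vac : Finset V → ℚ) = 0 := by
  ext σ
  rw [bd_apply]
  exact sum_eq_zero fun a _ => by simp [ann_apply, vac]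

/-- the wedge product of a family of linear forms -/
noncomputable def Alt {r : V → ℕ} (hr : Function.Injective r) {m : ℕ} (η : Fin m → V → ℚ) :
    Finset V → ℚ :=
  ExteriorAlgebra.lift ℚ ⟨CC r, CC_sq hr⟩ (ExteriorAlgebra.ιMulti ℚ m η) vac

variable {r : V → ℕ} (hr : Function.Injective r)

lemma Alt_zero (η : Fin 0 → V → ℚ) : Alt hr η = vac := by
  simp [Alt]

lemma Alt_succ {m : ℕ} (η : Fin (m + 1) → V → ℚ) :
    Alt hr η = CC r (η 0) (Alt hr fun t => η t.succ) := by
  unfold Alt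
  rw [ExteriorAlgebra.ιMulti_succ_apply, map_mul, ExteriorAlgebra.lift_ι_apply,
    Module.End.mul_apply]
  rfl

lemma Alt_perm {m : ℕ} (η : Fin m → V → ℚ) (ρ : Equiv.Perm (Fin m)) :
    Alt hr (fun t => η (ρ t)) = ((Equiv.Perm.sign ρ : ℤ) : ℚ) • Alt hr η := by
  unfold Alt
  have := (ExteriorAlgebra.ιMulti ℚ m (M := V → ℚ)).map_perm η ρ
  rw [show (fun t => η (ρ t)) = η ∘ ρ from rfl, this, Units.smul_def, map_zsmul,
    LinearMap.smul_apply, Int.cast_smul_eq_zsmul]

lemma CC_Alt_self {m : ℕ} (η : Fin m → V → ℚ) (t : Fin m) : CC r (η t) (Alt hr η) = 0 := by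
  have h1 := Alt_succ hr (Fin.cons (η t) η : Fin (m + 1) → V → ℚ)
  simp only [Fin.cons_zero, Fin.cons_succ] at h1
  rw [← h1]
  unfold Alt
  rw [(ExteriorAlgebra.ιMulti ℚ (m + 1) (M := V → ℚ)).map_eq_zero_of_eq _ (i := 0) (j := t.succ)
    (by simp) (Fin.succ_ne_zero t).symm]
  simp

lemma bd_Alt : ∀ {m : ℕ} (η : Fin (m + 1) → V → ℚ), (∀ t, ∑ a, η t a = 1) →
    bd r (Alt hr η) = ∑ t : Fin (m + 1), (-1 : ℚ) ^ (t : ℕ) • Alt hr fun s => η (t.succAbove s)
  | 0, η, h => by
    rw [Alt_succ, bd_CC hr, h, Alt_zero, bd_vac]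
    simp [Alt_zero]
  | m + 1, η, h => by
    rw [Alt_succ, bd_CC hr, h, bd_Alt (fun t => η t.succ) (fun t => h _), map_sum,
      sub_eq_add_neg, ← sum_neg_distrib]
    conv_rhs => rw [Fin.sum_univ_succ]
    refine congrArg₂ (· + ·) (by simp) (sum_congr rfl fun t _ => ?_)
    rw [Alt_succ hr (fun s => η (t.succ.succAbove s)), map_smul, Fin.val_succ, pow_succ,
      mul_neg_one, neg_smul]
    simp

lemma CC_ne_zero {η : V → ℚ} {z : Finset V → ℚ} {σ : Finset V} (h : CC r η z σ ≠ 0) :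
    ∃ a ∈ σ, η a ≠ 0 ∧ z (σ.erase a) ≠ 0 := by
  rw [CC_apply, Finset.sum_apply] at h
  obtain ⟨a, _, ha⟩ := exists_ne_zero_of_sum_ne_zero h
  rw [Pi.smul_apply, smul_eq_mul, cre_apply] at ha
  by_cases haσ : a ∈ σ
  · rw [if_pos haσ] at ha
    exact ⟨a, haσ, left_ne_zero_of_mul ha, right_ne_zero_of_mul (right_ne_zero_of_mul ha)⟩
  · simp [haσ] at ha

lemma Alt_supp : ∀ {m : ℕ} (η : Fin m → V → ℚ) (σ : Finset V), Alt hr η σ ≠ 0 →
    (∀ a ∈ σ, ∃ t, η t a ≠ 0) ∧ ∀ t, ∃ a ∈ σ, η t a ≠ 0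
  | 0, η, σ, h => by
    rw [Alt_zero] at h
    have : σ = ∅ := by
      by_contra h'
      exact h (by simp [vac, h'])
    subst this
    exact ⟨by simp, fun t => t.elim0⟩
  | m + 1, η, σ, h => by
    rw [Alt_succ] at h
    obtain ⟨a, ha, h1, h2⟩ := CC_ne_zero h
    obtain ⟨h3, h4⟩ := Alt_supp _ _ h2
    refine ⟨fun b hb => ?_, fun t => ?_⟩
    · by_cases hba : b = a
      · exact ⟨0, hba ▸ h1⟩
      · obtain ⟨t, ht⟩ := h3 b (mem_erase.2 ⟨hba, hb⟩)
        exact ⟨t.succ, ht⟩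
    · refine Fin.cases ⟨a, ha, h1⟩ (fun t => ?_) t
      obtain ⟨b, hb, h5⟩ := h4 t
      exact ⟨b, mem_of_mem_erase hb, h5⟩

lemma Alt_congr : ∀ {m : ℕ} (η η' : Fin m → V → ℚ) (σ : Finset V),
    (∀ t, ∀ a ∈ σ, η t a = η' t a) → Alt hr η σ = Alt hr η' σ
  | 0, η, η', σ, _ => by rw [Alt_zero, Alt_zero]
  | m + 1, η, η', σ, h => by
    rw [Alt_succ, Alt_succ hr η', CC_apply, CC_apply, Finset.sum_apply, Finset.sum_apply]
    refine sum_congr rfl fun a _ => ?_
    simp only [Pi.smul_apply, smul_eq_mul, cre_apply]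
    by_cases ha : a ∈ σ
    · rw [if_pos ha, if_pos ha, h 0 a ha, Alt_congr (fun t => η t.succ) (fun t => η' t.succ)
        (σ.erase a) fun t b hb => h _ b (mem_of_mem_erase hb)]
    · simp [ha]

lemma Alt_single_ne_zero : ∀ {m : ℕ} (ε : Fin m → V), Function.Injective ε →
    Alt hr (fun t => Pi.single (ε t) (1 : ℚ)) (univ.image ε) ≠ 0
  | 0, ε, _ => by simp [Alt_zero, vac]
  | m + 1, ε, h => by
    rw [Alt_succ, CC_apply, Finset.sum_apply, sum_eq_single (ε 0)]
    · have h1 : ε 0 ∈ univ.image ε := mem_image_of_mem _ (mem_univ _)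
      have h2 : (univ.image ε).erase (ε 0) = univ.image fun t : Fin m => ε t.succ := by
        ext a
        simp only [mem_erase, mem_image, mem_univ, true_and]
        constructor
        · rintro ⟨h0, t, rfl⟩
          refine Fin.cases (fun h0 => (h0 rfl).elim) (fun t _ => ⟨t, rfl⟩) t h0
        · rintro ⟨t, rfl⟩
          exact ⟨fun h' => Fin.succ_ne_zero t (h h'), _, rfl⟩
      rw [Pi.single_eq_same, one_smul, cre_apply, if_pos h1, h2]
      refine mul_ne_zero (fun h0 => ?_) (Alt_single_ne_zero (fun t => ε t.succ)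
        fun s t hst => Fin.succ_injective _ (h hst))
      have := sg_sq (F := ℚ) r (univ.image ε) (ε 0)
      rw [h0, zero_mul] at this
      exact zero_ne_one this
    · intro b _ hb
      simp [Pi.single_eq_of_ne hb]
    · simp

lemma pr_eq_zero_of_acyc {K : Set (Finset V)} (hA : Acyc ℚ r K) {z w : Finset V → ℚ}
    (hz : Supp K z) (h0 : bd r z = 0) (hw : ∀ σ ∈ K, CC r 1 w σ = 0) : pr z w = 0 := by
  obtain ⟨c, hc, rfl⟩ := hA z hz h0
  rw [pr_bd]
  refine sum_eq_zero fun σ _ => ?_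
  by_cases h : σ ∈ K
  · rw [hw σ h, mul_zero]
  · rw [hc σ h, zero_mul]

end Pool.Agent.MP_257582_lc.H60
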